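import Pool.Agent.R388.GB.Main
set_option autoImplicit false

/-!
# The degree one part of the comparison implies the vanishing in degrees `i ≤ 0`
-/

namespace Pool.Agent.Results.MP_9c6ec7_al.DegreeOneImpliesVanishing

open Pool.Agent.R388.BS Pool.Agent.R388.GB

/-- `H^0(K[x]/(π), m) = 0` for all irreducible polynomials `π`. -/
def OnLine (T : FieldCohomology) (K : Type) [Field K] (m : ℤ) : Prop :=
  ∀ (π : Polynomial K) [Fact (Irreducible π)], Zero T (AdjoinRoot π) 0 m

/-- `H^0(F, m) = 0` for all extensions `F` of `k` of transcendence degree at most `r`. -/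
def UpTo (T : FieldCohomology) (k : Type) [Field k] (r : ℕ) (m : ℤ) : Prop :=
  ∀ (F : Type) [Field F] [Algebra k F], Algebra.trdeg k F ≤ r → Zero T F 0 m

/-- `H^0(F, m) = 0` for all extensions `F` of `k`. -/
def Over (T : FieldCohomology) (k : Type) [Field k] (m : ℤ) : Prop :=
  ∀ (F : Type) [Field F] [Algebra k F], Zero T F 0 m

/-- The vanishing of `H^i(F, m)` for all fields `F`, all `m ≥ 1` and all `i ≤ 0`. -/
def Vanishing (T : FieldCohomology) : Prop :=
  ∀ (F : Type) [Field F] (i m : ℤ), i ≤ 0 → 1 ≤ m → Zero T F i m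

/-- Let `T`, `H^i(F, m)`, be a cohomology theory of fields with the formal properties of
`H^i(F, m) = gr^γ_m K_{2m-i}(F) ⊗ ℚ` (`IsMotivic`, `Specialises`). Let `n ≥ 2` and let `c` be a
comparison map in degree one and weight `n`: a homomorphism `H^1(Γ(F,n) ⊗ ℚ) → H^1(F, n)` for all
fields `F`, compatible with all homomorphisms of fields. Then for all fields `K`, `k`:

1. If `c` is surjective for `K(x)`, then `H^0(K[x]/(π), n-1) = 0` for all irreducible `π`. If `c` is
   surjective for `K`, the converse holds.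
2. If `c` is surjective for `k(t_0, ..., t_r)`, then `H^0(F, n-1) = 0` for all extensions `F` of `k`
   of transcendence degree at most `r`. If `c` is surjective for `k`, the converse holds.
3. If `c` is surjective for the field `k(t_0, t_1, ...)`, then `H^(-j)(F, n-1-j) = 0` for all
   extensions `F` of `k` and all `j ≥ 0`. If `c` is surjective for `k` and `H^0(F, n-1) = 0` for all
   extensions `F` of `k`, then `c` is surjective for `k(t_0, t_1, ...)`.
4. If there are comparison maps in degree one in all weights `n ≥ 2` which are surjective for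
   `ℚ(t_0, t_1, ...)` and all `𝔽_p(t_0, t_1, ...)`, then `H^i(F, m) = 0` for all fields `F`, all
   `m ≥ 1` and all `i ≤ 0`. -/
theorem result (T : FieldCohomology) (hT : IsMotivic T) (hS : Specialises T) :
    (∀ (n : ℕ), 2 ≤ n → ∀ c : Comparison T n,
      (∀ (K : Type) [Field K], (c.Surj (RatFunc K) → OnLine T K (n - 1)) ∧
        (c.Surj K → OnLine T K (n - 1) → c.Surj (RatFunc K))) ∧
      (∀ (k : Type) [Field k] (r : ℕ),
        (c.Surj (FractionRing (MvPolynomial (Fin (r + 1)) k)) → UpTo T k r (n - 1)) ∧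
        (c.Surj k → UpTo T k r (n - 1) → c.Surj (FractionRing (MvPolynomial (Fin (r + 1)) k)))) ∧
      (∀ (k : Type) [Field k],
        (c.Surj (FractionRing (MvPolynomial ℕ k)) → ∀ (F : Type) [Field F] [Algebra k F] (j : ℕ),
          Zero T F (-j) (n - 1 - j)) ∧
        (c.Surj k → Over T k (n - 1) → c.Surj (FractionRing (MvPolynomial ℕ k))))) ∧
    ((∀ n : ℕ, 2 ≤ n → ∃ c : Comparison T n, c.Surj (FractionRing (MvPolynomial ℕ ℚ)) ∧
      ∀ (p : ℕ) [Fact p.Prime], c.Surj (FractionRing (MvPolynomial ℕ (ZMod p)))) →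
      Vanishing T) := by
  have h3 : ∀ (n : ℕ), 2 ≤ n → ∀ c : Comparison T n, ∀ (k : Type) [Field k],
      c.Surj (FractionRing (MvPolynomial ℕ k)) → ∀ (F : Type) [Field F] [Algebra k F] (j : ℕ),
          Zero T F (-j) (n - 1 - j) := by
    intro n hn c k _ h F _ _ j
    have h1 := zero_shift_all hT (k := k) (i := 0) (n := (n : ℤ) - 1) le_rfl
      (fun E _ _ => zero_of_surj_Rat hT hn hS h) j F
    rwa [zero_sub] at h1
  refine ⟨fun n hn c => ⟨fun K _ => ⟨fun h π _ => zero_of_surj hT hn hS h π,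
    fun h h' => surj_ratFunc hT hn h h'⟩, fun k _ r => ⟨fun h F _ _ hF => ?_, fun h h' => ?_⟩,
    fun k _ => ⟨h3 n hn c k, fun h h' => surj_Rat hT hn h h'⟩⟩, fun h F _ i m hi hm => ?_⟩
  · obtain ⟨e⟩ := exists_equiv_fraction k (r + 1)
    exact zero_of_surj_bounded hT hn hS (Surj.of_equiv hn e.toRingEquiv h) hF
  · obtain ⟨e⟩ := exists_equiv_fraction k (r + 1)
    exact Surj.of_equiv hn e.symm.toRingEquiv (surj_Kf hT hn h h' _ le_rfl)
  · obtain ⟨j, hj⟩ := Int.eq_ofNat_of_zero_le (show 0 ≤ -i by omega)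
    obtain ⟨l, hl⟩ := Int.eq_ofNat_of_zero_le (show 0 ≤ m - 1 by omega)
    obtain ⟨c, hc0, hcp⟩ := h (l + j + 2) (by omega)
    have e1 : -(j : ℤ) = i := by omega
    have e2 : (((l + j + 2 : ℕ) : ℤ) - 1 - j) = m := by push_cast; omega
    obtain ⟨p, hpF⟩ := CharP.exists F
    rcases CharP.char_is_prime_or_zero F p with h1 | h1
    · have : Fact p.Prime := ⟨h1⟩
      let _ := ZMod.algebra F p
      have h2 := h3 _ (by omega) c (ZMod p) (hcp p) F j
      rwa [e1, e2] at h2
    · subst h1
      have : CharZero F := CharP.charP_to_charZero F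
      have h2 := h3 _ (by omega) c ℚ hc0 F j
      rwa [e1, e2] at h2

end Pool.Agent.Results.MP_9c6ec7_al.DegreeOneImpliesVanishing
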